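import Pool.Agent.H93.CP.Targets

/-!
TPS: countably many measurable sets of a Polish space can be made open.
-/

set_option autoImplicit false

namespace Pool.Agent.H13.CPT

open Set Filter Topology Pool.Agent.H93.CP

theorem pf_TPS : T_TPS := by
  intro X mX t hP hB A hA hm
  have hcl : ∀ s : A, ∃ t' : TopologicalSpace X, t' ≤ t ∧ @PolishSpace X t' ∧
      IsClosed[t'] s.1 ∧ IsOpen[t'] s.1 := fun s =>
    @MeasurableSet.isClopenable X t hP mX hB s.1 (hm s.1 s.2)
  choose f hf1 hf2 _ hf4 using hcl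
  have : Countable A := hA.to_subtype
  obtain ⟨t', h1, h2, h3⟩ := @PolishSpace.exists_polishSpace_forall_le X A _ t hP f hf1 hf2
  refine ⟨t', h2, h3, ?_, ?_⟩
  · have e1 : mX = @borel X t := @BorelSpace.measurable_eq X t mX hB
    have e2 : @borel X t' = @borel X t := MeasureTheory.borel_eq_borel_of_le h3 hP h2
    exact @BorelSpace.mk X t' mX (e1.trans e2.symm)
  · intro s hs
    exact h1 ⟨s, hs⟩ s (hf4 ⟨s, hs⟩)

end Pool.Agent.H13.CPT
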